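import Pool.Agent.Lib.MP_9ff0e7_co.Block

/-!
Every two-coloured set of n points in general position in the plane spans at least
c n^(3/2) monochromatic empty triangles.
-/

set_option autoImplicit false
open scoped Classical

namespace Pool.Agent.Results.MP_9ff0e7_co.ThreeHalves

open Pool.Agent.Lib.MP_9ff0e7_co

theorem collinear_of_D {a b c : ℝ × ℝ} (hab : a ≠ b) (h : D 1 a b c = 0) :
    Collinear ℝ ({a, b, c} : Set (ℝ × ℝ)) := by
  rw [collinear_iff_of_mem (p₀ := a) (by simp)]
  refine ⟨b - a, ?_⟩
  intro p hp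
  simp only [Set.mem_insert_iff, Set.mem_singleton_iff] at hp
  rcases hp with rfl | rfl | rfl
  · exact ⟨0, by simp⟩
  · exact ⟨1, by simp⟩
  · unfold D at h
    by_cases h1 : b.1 - a.1 = 0
    · have h2 : b.2 - a.2 ≠ 0 := by
        intro h2
        apply hab
        exact Prod.ext (by linarith) (by linarith)
      refine ⟨(p.2 - a.2) / (b.2 - a.2), ?_⟩
      rw [h1] at h
      have h3 : p.1 - a.1 = 0 := by
        have : (b.2 - a.2) * (p.1 - a.1) = 0 := by linarith
        exact (mul_eq_zero.1 this).resolve_left h2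
      apply Prod.ext
      · simp [h1]; linarith
      · simp; field_simp; ring
    · refine ⟨(p.1 - a.1) / (b.1 - a.1), ?_⟩
      apply Prod.ext
      · simp; field_simp; ring
      · simp; field_simp; linarith

theorem exists_height (S : Finset (ℝ × ℝ)) : ∃ ε : ℝ, Set.InjOn (Ht ε) S := by
  obtain ⟨ε, hε⟩ := Infinite.exists_notMem_finset
    ((S ×ˢ S).image (fun q => (q.2.2 - q.1.2) / (q.1.1 - q.2.1)))
  refine ⟨ε, ?_⟩
  intro a ha b hb hab
  by_contra hne
  unfold Ht at hab
  by_cases h1 : a.1 = b.1
  · apply hne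
    rw [h1] at hab
    exact Prod.ext h1 (by linarith)
  · apply hε
    rw [Finset.mem_image]
    refine ⟨(a, b), Finset.mem_product.2 ⟨ha, hb⟩, ?_⟩
    have h2 : a.1 - b.1 ≠ 0 := sub_ne_zero.2 h1
    simp only
    rw [div_eq_iff h2]
    linarith

/-- There are `c > 0` and `N` such that every set of at least `N` points in the plane, no three
collinear, two-coloured in any way, has at least `c n^(3/2)` monochromatic 3-subsets whose convex
hull contains no other point of the set. -/
theorem result :
    ∃ c : ℝ, 0 < c ∧ ∃ N : ℕ, ∀ X : Finset (ℝ × ℝ), N ≤ X.card →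
      (∀ T : Finset (ℝ × ℝ), T ⊆ X → T.card = 3 →
        ¬ Collinear ℝ ((↑T : Set (ℝ × ℝ)))) →
      ∀ f : ℝ × ℝ → Bool,
        c * ((X.card : ℝ) ^ (3 / 2 : ℝ)) ≤
          (((X.powersetCard 3).filter (fun T : Finset (ℝ × ℝ) =>
              (∃ b : Bool, ∀ x ∈ T, f x = b) ∧
              Disjoint (convexHull ℝ ((↑T : Set (ℝ × ℝ))))
                ((↑(X \ T) : Set (ℝ × ℝ))))).card : ℝ) := by
  refine ⟨1 / 10 ^ 7, by positivity, 100000000, ?_⟩
  intro X hN hX f
  have hGP : GP X := by
    intro a ha b hb c hc hab hac hbc h0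
    have hcol := collinear_of_D hab h0
    apply hX {a, b, c}
    · intro y hy
      simp only [Finset.mem_insert, Finset.mem_singleton] at hy
      rcases hy with rfl | rfl | rfl <;> assumption
    · rw [Finset.card_insert_of_notMem, Finset.card_insert_of_notMem, Finset.card_singleton]
      · simpa using hbc
      · simp [hab, hac]
    · simpa using hcol
  obtain ⟨ε, hH⟩ := exists_height X
  have h := main_sqrt X hGP ε hH f hN
  have hpow : (X.card : ℝ) ^ (3 / 2 : ℝ) = Real.sqrt X.card * X.card := by
    have h0 : (0 : ℝ) < X.card := by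
      have : 0 < X.card := by omega
      exact_mod_cast this
    rw [Real.sqrt_eq_rpow]
    have : (3 / 2 : ℝ) = 1 / 2 + 1 := by norm_num
    rw [this, Real.rpow_add h0, Real.rpow_one]
  rw [hpow]
  calc 1 / 10 ^ 7 * (Real.sqrt X.card * X.card) = (Real.sqrt X.card / 10 ^ 7) * X.card := by ring
    _ ≤ ((Tri X f).card : ℝ) := h
    _ = _ := by unfold Tri; rfl

end Pool.Agent.Results.MP_9ff0e7_co.ThreeHalves
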